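import Mathlib
import Pool.Agent.MP_aa2243_gt.h50.AllCreases

/-!
Q1 of MP_aa2243_gt fails: a rigid-foldable two-vertex crease pattern on a convex sheet (a
rectangle) whose configuration space is disconnected.  The conclusion holds for every set between
the embedded states and the full configuration space, so it does not depend on the convention for
the sign of the angle at a crease that is folded flat.  The pattern also has a rigid folding
from the unfolded state along which every crease is folded.
-/

set_option autoImplicit false

open Pool.Agent.MP_aa2243_gt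

theorem Pool.Agent.Results.MP_aa2243_gt.TwoVertexLocked.result :
    ∃ (m : ℕ) (G : CreasePattern m), G.IsPlane ∧ G.IsTwoVertex ∧ Convex ℝ G.region ∧
      (∀ e, G.src e ∈ interior G.region) ∧ (∃ e, G.tgt e ∈ interior G.region) ∧
      G.embeddedStates ⊆ G.configSpace ∧ FoldableIn G.embeddedStates ∧
      (∃ γ : unitInterval → (Fin m → ℝ), Continuous γ ∧ γ 0 = 0 ∧ (∀ t, γ t ∈ G.embeddedStates) ∧
        ∀ t, t ≠ 0 → ∀ e, γ t e ≠ 0) ∧
      ∀ C : Set (Fin m → ℝ), G.embeddedStates ⊆ C → C ⊆ G.configSpace → ¬ IsPreconnected C :=
  ⟨7, G0, G0_plane, G0_two, R0_convex, G0_ends, ⟨0, v_int⟩, embedded_subset G0, foldable,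
    AllCreases.all_creases, fun _ h1 h2 => not_preconnected h1 h2⟩
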